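import Mathlib
import Pool.Agent.Y772.NZ.Zeta
import Pool.Agent.Y772.DK.Main

/-!
# The Euler product of the Dedekind zeta function
-/

set_option autoImplicit false
set_option linter.unusedSectionVars false

open NumberField Complex Filter Topology IsDedekindDomain

namespace Run7.h375.Euler

open Pool.Agent.Y773 (VM LI)
open Pool.Agent.Y772.NZ (one one_ne one_norm LI_one)
open Pool.Agent.Y772.DK

variable (F : Type) [Field F] [NumberField F]

/-- the norm of a prime -/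
noncomputable def nm {F : Type} [Field F] [NumberField F] (w : HeightOneSpectrum (𝓞 F)) : ℕ :=
  Ideal.absNorm w.asIdeal

variable {F} in
lemma two_le_nm (w : HeightOneSpectrum (𝓞 F)) : 2 ≤ nm w := by
  have h1 : Ideal.absNorm w.asIdeal ≠ 0 := fun h => w.ne_bot (Ideal.absNorm_eq_zero_iff.mp h)
  have h2 : Ideal.absNorm w.asIdeal ≠ 1 := fun h =>
    w.isPrime.ne_top (Ideal.absNorm_eq_one_iff.mp h)
  unfold nm
  omega

variable {F} in
lemma nm_cpow_lt (w : HeightOneSpectrum (𝓞 F)) {s : ℂ} (hs : 0 < s.re) :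
    ‖(nm w : ℂ) ^ (-s)‖ < 1 := by
  have h2 := two_le_nm w
  rw [Complex.norm_natCast_cpow_of_pos (by omega), neg_re]
  apply Real.rpow_lt_one_of_one_lt_of_neg
  · exact_mod_cast (by omega : 1 < nm w)
  · linarith

lemma zeta_ne {s : ℂ} (hs : 1 < s.re) : dedekindZeta F s ≠ 0 := by
  rw [← LI_one F hs, LI_eq_exp (one F) (one_norm F) hs]
  exact Complex.exp_ne_zero _

/-- the prime powers -/
noncomputable def pp (x : HeightOneSpectrum (𝓞 F) × ℕ) : Ideal (𝓞 F) := x.1.asIdeal ^ (x.2 + 1)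

lemma pp_inj : Function.Injective (pp F) := by
  rintro ⟨v, m⟩ ⟨w, n⟩ h
  unfold pp at h
  simp only at h
  have h1 : v.asIdeal = w.asIdeal := by
    have e1 : v.asIdeal ∣ w.asIdeal ^ (n + 1) := h ▸ dvd_pow_self _ (Nat.succ_ne_zero m)
    have e2 := (v.prime.dvd_of_dvd_pow e1)
    exact (associated_iff_eq.mp ((v.prime.dvd_prime_iff_associated w.prime).mp e2))
  have h2 : v = w := HeightOneSpectrum.ext h1
  subst h2
  have h3 : m + 1 = n + 1 := by
    have h4 := congrArg Ideal.absNorm h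
    rw [map_pow, map_pow] at h4
    have h5 := two_le_nm v
    unfold nm at h5
    exact Nat.pow_right_injective h5 h4
  have : m = n := by omega
  rw [this]

/-- **The Euler product of the Dedekind zeta function** -/
theorem hasProd_zeta {s : ℂ} (hs : 1 < s.re) :
    HasProd (fun w : HeightOneSpectrum (𝓞 F) => (1 - (nm w : ℂ) ^ (-s))⁻¹) (dedekindZeta F s) := by
  have h1 : HasSum (fun 𝔞 : Ideal (𝓞 F) => ee (one F) 𝔞 * ((Ideal.absNorm 𝔞 : ℕ) : ℂ) ^ (-s))
      (Pool.Agent.Y772.DK.LA (ee (one F)) s) :=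
    (term_summable (ee_zero (one F)) (ee_le (one F) (one_norm F)) hs).of_norm.hasSum
  have h2 : HasSum ((fun 𝔞 : Ideal (𝓞 F) => ee (one F) 𝔞 * ((Ideal.absNorm 𝔞 : ℕ) : ℂ) ^ (-s)) ∘
      pp F) (Pool.Agent.Y772.DK.LA (ee (one F)) s) := by
    rw [(pp_inj F).hasSum_iff]
    · exact h1
    · intro 𝔞 h𝔞
      have : ¬ IsPrimePow 𝔞 := by
        rintro ⟨P, k, hP, hk, rfl⟩
        apply h𝔞
        refine ⟨(⟨P, Ideal.isPrime_of_prime hP, hP.ne_zero⟩, k - 1), ?_⟩
        unfold pp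
        simp only
        congr 1
        omega
      unfold ee
      rw [VM_of_not this, zero_div, ofReal_zero, zero_mul, zero_mul]
  have h3 : ∀ x : HeightOneSpectrum (𝓞 F) × ℕ,
      ((fun 𝔞 : Ideal (𝓞 F) => ee (one F) 𝔞 * ((Ideal.absNorm 𝔞 : ℕ) : ℂ) ^ (-s)) ∘ pp F) x =
      ((nm x.1 : ℂ) ^ (-s)) ^ (x.2 + 1) / ((x.2 + 1 : ℕ) : ℂ) := by
    rintro ⟨w, m⟩
    have h5 := two_le_nm w
    have hne : w.asIdeal ^ (m + 1) ≠ 0 := pow_ne_zero _ w.ne_bot
    simp only [Function.comp_apply, pp]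
    unfold ee
    rw [VM_pow w.prime (Nat.succ_ne_zero m), one_ne F hne, mul_one, map_pow]
    have hlog : Real.log (nm w : ℝ) ≠ 0 := by
      apply Real.log_ne_zero_of_pos_of_ne_one
      · exact_mod_cast (by omega : 0 < nm w)
      · exact_mod_cast (by omega : nm w ≠ 1)
    have e1 : Real.log (Ideal.absNorm w.asIdeal : ℝ) /
        Real.log ((Ideal.absNorm w.asIdeal ^ (m + 1) : ℕ) : ℝ) = ((m + 1 : ℕ) : ℝ)⁻¹ := by
      change Real.log (nm w : ℝ) / Real.log ((nm w ^ (m + 1) : ℕ) : ℝ) = _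
      rw [Nat.cast_pow, Real.log_pow]
      have : ((m + 1 : ℕ) : ℝ) ≠ 0 := by exact_mod_cast Nat.succ_ne_zero m
      field_simp
    rw [e1]
    have e2 : ((Ideal.absNorm w.asIdeal ^ (m + 1) : ℕ) : ℂ) ^ (-s) =
        ((nm w : ℂ) ^ (-s)) ^ (m + 1) := by
      rw [Nat.cast_pow, ← Complex.cpow_nat_mul, ← Complex.natCast_cpow_natCast_mul]
      rfl
    rw [e2]
    push_cast
    field_simp
  have h4 : HasSum (fun x : HeightOneSpectrum (𝓞 F) × ℕ =>
      ((nm x.1 : ℂ) ^ (-s)) ^ (x.2 + 1) / ((x.2 + 1 : ℕ) : ℂ))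
      (Pool.Agent.Y772.DK.LA (ee (one F)) s) := by
    refine h2.congr_fun fun x => ?_
    exact (h3 x).symm
  have h5 : ∀ w : HeightOneSpectrum (𝓞 F), HasSum (fun m : ℕ =>
      ((nm w : ℂ) ^ (-s)) ^ (m + 1) / ((m + 1 : ℕ) : ℂ)) (-Complex.log (1 - (nm w : ℂ) ^ (-s))) := by
    intro w
    have h6 := Complex.hasSum_taylorSeries_neg_log (nm_cpow_lt w (s := s) (by linarith))
    rw [← hasSum_nat_add_iff' 1] at h6
    simpa using h6
  have h6 := h4.prod_fiberwise h5
  have h7 := h6.cexp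
  rw [← LI_one F hs, LI_eq_exp (one F) (one_norm F) hs]
  convert h7 using 1
  funext w
  simp only [Function.comp_apply]
  rw [Complex.exp_neg, Complex.exp_log]
  intro h0
  have := nm_cpow_lt w (s := s) (by linarith)
  have h8 : (nm w : ℂ) ^ (-s) = 1 := by linear_combination -h0
  rw [h8, norm_one] at this
  exact lt_irrefl _ this

end Run7.h375.Euler
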