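import Pool.Agent.Run7.h375.Zeta2

/-!
# The functional equation of the Dedekind zeta function, III: the leading term at zero
-/

set_option autoImplicit false
set_option linter.unusedSectionVars false

open NumberField Complex Filter Topology Set MeasureTheory NumberField.InfinitePlace
  NumberField.Units

namespace Run7.h375.Zeta

open Pool.Agent.Y773.G

variable (K : Type) [Field K] [NumberField K]

lemma ex_zero_iff (φ : K →+* ℂ) :
    ex (fun _ : InfinitePlace K => 0) φ = 0 ↔ (InfinitePlace.mk φ).embedding = φ := by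
  unfold ex
  by_cases h : (InfinitePlace.mk φ).IsReal
  · rw [if_pos h]
    simp only [true_iff]
    have h1 : ComplexEmbedding.IsReal φ := by
      obtain ⟨ψ, hψ, h2⟩ := h
      rcases InfinitePlace.mk_eq_iff.mp h2 with h3 | h3
      · rwa [← h3]
      · rw [ComplexEmbedding.isReal_iff] at hψ ⊢
        have h4 : ComplexEmbedding.conjugate φ = ψ := by rw [← h3, hψ, hψ]
        rw [← h3, hψ, hψ] 
    exact InfinitePlace.embedding_mk_eq_of_isReal h1
  · rw [if_neg h]
    split_ifs with h2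
    · simp [h2]
    · simp [h2]

lemma ex_le_one (φ : K →+* ℂ) : ex (fun _ : InfinitePlace K => 0) φ ≤ 1 := by
  unfold ex
  split_ifs <;> simp

lemma card_ex_zero : (Finset.univ.filter fun φ : K →+* ℂ =>
    ex (fun _ : InfinitePlace K => 0) φ = 0).card = nrRealPlaces K + nrComplexPlaces K := by
  classical
  rw [← card_eq_nrRealPlaces_add_nrComplexPlaces, ← Finset.card_univ]
  refine Finset.card_bij' (fun φ _ => InfinitePlace.mk φ) (fun w _ => w.embedding)
    (fun _ _ => Finset.mem_univ _) ?_ ?_ ?_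
  · intro w _
    rw [Finset.mem_filter]
    refine ⟨Finset.mem_univ _, ?_⟩
    rw [ex_zero_iff, InfinitePlace.mk_embedding]
  · intro φ hφ
    rw [Finset.mem_filter] at hφ
    exact (ex_zero_iff K φ).mp hφ.2
  · intro w _
    exact InfinitePlace.mk_embedding w

lemma card_ex_one : (Finset.univ.filter fun φ : K →+* ℂ =>
    ¬ ex (fun _ : InfinitePlace K => 0) φ = 0).card = nrComplexPlaces K := by
  have h1 := Finset.card_filter_add_card_filter_not (s := (Finset.univ : Finset (K →+* ℂ)))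
    (fun φ : K →+* ℂ => ex (fun _ : InfinitePlace K => 0) φ = 0)
  rw [card_ex_zero, Finset.card_univ, Embeddings.card, ← card_add_two_mul_card_eq_rank] at h1
  omega

lemma GaK_eq (s : ℂ) : GaK K s = Gammaℝ s ^ (nrRealPlaces K + nrComplexPlaces K) *
    Gammaℝ (s + 1) ^ (nrComplexPlaces K) := by
  unfold GaK
  rw [← Finset.prod_filter_mul_prod_filter_not Finset.univ
    (fun φ : K →+* ℂ => ex (fun _ : InfinitePlace K => 0) φ = 0)]
  congr 1
  · rw [← card_ex_zero K]
    apply Finset.prod_eq_pow_card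
    intro φ hφ
    rw [(Finset.mem_filter.mp hφ).2]
    simp
  · rw [← card_ex_one K]
    apply Finset.prod_eq_pow_card
    intro φ hφ
    have h1 := (Finset.mem_filter.mp hφ).2
    have h2 := ex_le_one K φ
    have h3 : ex (fun _ : InfinitePlace K => 0) φ = 1 := by omega
    rw [h3]
    simp

lemma tendsto_one_ofReal : Tendsto (fun s : ℝ => (s : ℂ)) (𝓝[>] 1) (𝓝[≠] 1) := by
  refine tendsto_nhdsWithin_iff.mpr ⟨?_, ?_⟩
  · refine (Complex.continuous_ofReal.tendsto 1).mono_left nhdsWithin_le_nhds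
  · filter_upwards [self_mem_nhdsWithin] with s hs
    have : (1 : ℝ) < s := hs
    simp only [mem_compl_iff, mem_singleton_iff]
    exact_mod_cast this.ne'

lemma Gammaℝ_two : Gammaℝ 2 = (Real.pi : ℂ)⁻¹ := by
  rw [Gammaℝ_def]
  norm_num
  rw [Complex.cpow_neg_one]

/-- **The leading term of the Dedekind zeta function at zero** -/
theorem zeta_zero : ∃ Z : ℂ → ℂ, (∀ s, MeromorphicAt Z s) ∧
    (∀ s : ℂ, 1 < s.re → Z s = dedekindZeta K s) ∧
    Tendsto (fun s => Z s / s ^ (rank K)) (𝓝[≠] 0)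
      (𝓝 (-((classNumber K : ℂ) * (regulator K : ℂ) / (torsionOrder K : ℂ)))) := by
  obtain ⟨P, C, V, hC, hV, hk, hf, hg, h1, h2⟩ := data K
  have hCc : (C : ℂ) ≠ 0 := by exact_mod_cast hC.ne'
  have hVc : (V : ℂ) ≠ 0 := by exact_mod_cast hV.ne'
  have hcl : (classNumber K : ℂ) ≠ 0 := by exact_mod_cast (classNumber_pos K).ne'
  set N : ℝ := (Ideal.absNorm (differentIdeal ℤ (𝓞 K)) : ℝ) with hN
  have hNd : N = |(discr K : ℝ)| := by
    rw [hN, absNorm_differentIdeal (K := K)]
    have h9 : (((discr K).natAbs : ℤ) : ℝ) = ((|discr K| : ℤ) : ℝ) := by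
      rw [Int.natCast_natAbs]
    rw [Int.cast_abs] at h9
    rw [← h9]
    exact (Int.cast_natCast _).symm
  have hN0 : 0 < N := by
    rw [hNd]
    exact abs_pos.mpr (Int.cast_ne_zero.mpr (discr_ne_zero K))
  have hNc : (N : ℂ) ≠ 0 := by exact_mod_cast hN0.ne'
  -- the residues
  have hk' : ((P.k : ℝ) : ℂ) = 1 := by rw [hk, ofReal_one]
  have hr1 : Tendsto (fun s : ℂ => (s - 1) * P.Λ s) (𝓝[≠] 1) (𝓝 ((classNumber K : ℂ) / V)) := by
    have := P.Λ_residue_k
    rw [hk'] at this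
    simp only [smul_eq_mul] at this
    rwa [hg] at this
  have hr0 : Tendsto (fun s : ℂ => s * P.Λ s) (𝓝[≠] 0) (𝓝 (-(classNumber K : ℂ))) := by
    have := P.Λ_residue_zero
    simp only [smul_eq_mul] at this
    rwa [hf] at this
  have hr1' : Tendsto (fun s : ℝ => ((s : ℂ) - 1) * P.Λ s) (𝓝[>] 1)
      (𝓝 ((classNumber K : ℂ) / V)) := hr1.comp tendsto_one_ofReal
  -- the square of `V`
  have hV2 : (V : ℂ) * V = N := by
    have e1 : Tendsto (fun s : ℝ => (1 : ℂ) - s) (𝓝[>] 1) (𝓝[≠] 0) := by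
      refine tendsto_nhdsWithin_iff.mpr ⟨?_, ?_⟩
      · have : Tendsto (fun s : ℝ => (1 : ℂ) - s) (𝓝 1) (𝓝 (1 - ((1 : ℝ) : ℂ))) :=
          (continuous_const.sub Complex.continuous_ofReal).tendsto 1
        rw [ofReal_one, sub_self] at this
        exact this.mono_left nhdsWithin_le_nhds
      · filter_upwards [self_mem_nhdsWithin] with s hs
        have : (1 : ℝ) < s := hs
        simp only [mem_compl_iff, mem_singleton_iff, sub_eq_zero]
        exact_mod_cast this.ne
    have e2 := hr0.comp e1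
    have e3 : Tendsto (fun s : ℝ => (V : ℂ)⁻¹ * (N : ℂ) ^ (s : ℂ) * (((s : ℂ) - 1) * P.Λ s))
        (𝓝[>] 1) (𝓝 ((V : ℂ)⁻¹ * (N : ℂ) ^ (1 : ℂ) * ((classNumber K : ℂ) / V))) := by
      refine Tendsto.mul (Tendsto.mul tendsto_const_nhds ?_) hr1'
      have : Tendsto (fun s : ℝ => (N : ℂ) ^ (s : ℂ)) (𝓝 1) (𝓝 ((N : ℂ) ^ ((1 : ℝ) : ℂ))) := by
        refine Continuous.tendsto ?_ 1
        exact Continuous.const_cpow Complex.continuous_ofReal (Or.inl hNc)
      rw [ofReal_one] at this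
      exact this.mono_left nhdsWithin_le_nhds
    have e4 : Tendsto (fun s : ℝ => -(((1 : ℂ) - s) * P.Λ (1 - s))) (𝓝[>] 1)
        (𝓝 (- -(classNumber K : ℂ))) := e2.neg
    have e5 : (fun s : ℝ => -(((1 : ℂ) - s) * P.Λ (1 - s))) =ᶠ[𝓝[>] 1]
        (fun s : ℝ => (V : ℂ)⁻¹ * (N : ℂ) ^ (s : ℂ) * (((s : ℂ) - 1) * P.Λ s)) := by
      filter_upwards [self_mem_nhdsWithin] with s hs
      have : (1 : ℝ) < s := hs
      rw [h2 (s : ℂ) (by simpa using this)]
      ring
    have e6 := tendsto_nhds_unique e4 (e3.congr' e5.symm)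
    rw [Complex.cpow_one, neg_neg] at e6
    field_simp at e6
    have e7 : (V : ℂ) ^ 2 = N := e6
    rw [← e7]; ring
  have hVs : V = Real.sqrt |(discr K : ℝ)| := by
    rw [← hNd]
    have : V * V = N := by exact_mod_cast hV2
    rw [← this, Real.sqrt_mul_self hV.le]
  -- the constant `C`
  have hCv : (C : ℂ) = (torsionOrder K : ℂ) /
      (2 ^ (nrRealPlaces K + nrComplexPlaces K) * (regulator K : ℂ)) := by
    have e1 : Tendsto (fun s : ℝ => (C : ℂ) * (GaK K s * (((s : ℂ) - 1) * dedekindZeta K s)))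
        (𝓝[>] 1) (𝓝 ((C : ℂ) * (GaK K 1 * (dedekindZeta_residue K : ℂ)))) := by
      refine Tendsto.mul tendsto_const_nhds (Tendsto.mul ?_ ?_)
      · have hc : ContinuousAt (fun s : ℂ => GaK K s) 1 := by
          have : (fun s : ℂ => GaK K s) = fun s => ((Gammaℝ s)⁻¹ ^ (nrRealPlaces K + nrComplexPlaces K) *
              (Gammaℝ (s + 1))⁻¹ ^ (nrComplexPlaces K))⁻¹ := by
            funext s
            rw [GaK_eq, mul_inv, ← inv_pow, ← inv_pow, inv_inv, inv_inv]
          rw [this]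
          refine ContinuousAt.inv₀ ?_ ?_
          · refine Continuous.continuousAt ?_
            have hd := differentiable_Gammaℝ_inv.continuous
            exact (hd.pow _).mul ((hd.comp (continuous_add_const 1)).pow _)
          · refine mul_ne_zero (pow_ne_zero _ (inv_ne_zero ?_)) (pow_ne_zero _ (inv_ne_zero ?_))
            · exact Gammaℝ_ne_zero_of_re_pos (by simp)
            · exact Gammaℝ_ne_zero_of_re_pos (by norm_num)
        exact hc.tendsto.comp (tendsto_one_ofReal.mono_right nhdsWithin_le_nhds)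
      · exact tendsto_sub_one_mul_dedekindZeta_nhdsGT K
    have e2 : (fun s : ℝ => ((s : ℂ) - 1) * P.Λ s) =ᶠ[𝓝[>] 1]
        (fun s : ℝ => (C : ℂ) * (GaK K s * (((s : ℂ) - 1) * dedekindZeta K s))) := by
      filter_upwards [self_mem_nhdsWithin] with s hs
      have : (1 : ℝ) < s := hs
      rw [h1 (s : ℂ) (by simpa using this)]
      ring
    have e3 := tendsto_nhds_unique hr1' (e1.congr' e2.symm)
    have e4 : GaK K 1 = ((Real.pi : ℂ)⁻¹) ^ (nrComplexPlaces K) := by
      rw [GaK_eq, Gammaℝ_one, one_pow, one_mul]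
      norm_num
      rw [Gammaℝ_two, inv_pow]
    rw [e4, dedekindZeta_residue_def, ← hVs] at e3
    have hR : (regulator K : ℂ) ≠ 0 := by exact_mod_cast (regulator_pos K).ne'
    have hw : (torsionOrder K : ℂ) ≠ 0 := by exact_mod_cast (torsionOrder_pos K).ne'
    have hpi : (Real.pi : ℂ) ≠ 0 := by exact_mod_cast Real.pi_ne_zero
    push_cast at e3
    have h2p : (2 : ℂ) ^ (nrRealPlaces K + nrComplexPlaces K) ≠ 0 := pow_ne_zero _ two_ne_zero
    rw [eq_div_iff (mul_ne_zero h2p hR), pow_add]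
    rw [mul_pow] at e3
    field_simp at e3
    have e5 : (1 / (Real.pi : ℂ)) ^ nrComplexPlaces K * (Real.pi : ℂ) ^ nrComplexPlaces K = 1 := by
      rw [← mul_pow, one_div, inv_mul_cancel₀ hpi, one_pow]
    linear_combination -e3 - ((C : ℂ) * 2 ^ nrRealPlaces K * 2 ^ nrComplexPlaces K *
      (regulator K : ℂ)) * e5
  have hR : (regulator K : ℂ) ≠ 0 := by exact_mod_cast (regulator_pos K).ne'
  have hw : (torsionOrder K : ℂ) ≠ 0 := by exact_mod_cast (torsionOrder_pos K).ne'
  refine ⟨fun s => (C : ℂ)⁻¹ * P.Λ s * ((Gammaℝ s)⁻¹ ^ (nrRealPlaces K + nrComplexPlaces K) *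
    (Gammaℝ (s + 1))⁻¹ ^ (nrComplexPlaces K)), ?_, ?_, ?_⟩
  · intro s
    have m1 : MeromorphicAt P.Λ s := by
      have : P.Λ = fun s => P.Λ₀ s - (1 / s) • P.f₀ - (P.ε / (P.k - s)) • P.g₀ := rfl
      rw [this]
      have m2 : MeromorphicAt P.Λ₀ s := (P.differentiable_Λ₀.analyticAt s).meromorphicAt
      have m3 : MeromorphicAt (fun s : ℂ => (1 / s) • P.f₀) s := by fun_prop
      have m4 : MeromorphicAt (fun s : ℂ => (P.ε / (P.k - s)) • P.g₀) s := by fun_prop
      exact (m2.sub m3).sub m4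
    have m5 : MeromorphicAt (fun s => (Gammaℝ s)⁻¹) s :=
      (differentiable_Gammaℝ_inv.analyticAt s).meromorphicAt
    have m6 : MeromorphicAt (fun s => (Gammaℝ (s + 1))⁻¹) s :=
      ((differentiable_Gammaℝ_inv.comp (differentiable_id.add_const (1 : ℂ))).analyticAt
        s).meromorphicAt
    exact ((MeromorphicAt.const _ _).mul m1).mul ((m5.pow _).mul (m6.pow _))
  · intro s hs
    simp only
    rw [h1 s hs, GaK_eq]
    have g1 : Gammaℝ s ≠ 0 := Gammaℝ_ne_zero_of_re_pos (by linarith)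
    have g2 : Gammaℝ (s + 1) ≠ 0 := Gammaℝ_ne_zero_of_re_pos (by simp; linarith)
    rw [inv_pow, inv_pow]
    field_simp
  · have hrk : nrRealPlaces K + nrComplexPlaces K = rank K + 1 := by
      rw [← card_eq_nrRealPlaces_add_nrComplexPlaces, rank]
      have : 0 < Fintype.card (InfinitePlace K) := Fintype.card_pos
      omega
    have t1 : Tendsto (fun s : ℂ => (s * Gammaℝ s)⁻¹) (𝓝[≠] 0) (𝓝 (2 : ℂ)⁻¹) :=
      Gammaℝ_residue_zero.inv₀ two_ne_zero
    have t2 : Tendsto (fun s : ℂ => (Gammaℝ (s + 1))⁻¹) (𝓝[≠] 0) (𝓝 1) := by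
      have hd := differentiable_Gammaℝ_inv.continuous.comp (continuous_add_const (1 : ℂ))
      have := hd.tendsto 0
      simp only [Function.comp_apply, zero_add, Gammaℝ_one, inv_one] at this
      exact this.mono_left nhdsWithin_le_nhds
    have t3 := ((tendsto_const_nhds (x := (C : ℂ)⁻¹)).mul hr0).mul
      ((t1.pow (rank K + 1)).mul (t2.pow (nrComplexPlaces K)))
    rw [one_pow, mul_one] at t3
    have e1 : (C : ℂ)⁻¹ * -(classNumber K : ℂ) * (2 : ℂ)⁻¹ ^ (rank K + 1) =
        -((classNumber K : ℂ) * (regulator K : ℂ) / (torsionOrder K : ℂ)) := by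
      rw [hCv, hrk, inv_pow]
      have h2p : (2 : ℂ) ^ (rank K + 1) ≠ 0 := pow_ne_zero _ two_ne_zero
      field_simp
    rw [e1] at t3
    refine t3.congr' ?_
    filter_upwards [self_mem_nhdsWithin] with s hs
    have hs' : s ≠ 0 := hs
    rw [hrk, mul_inv, mul_pow, pow_succ s⁻¹]
    rw [inv_pow s]
    field_simp

end Run7.h375.Zeta
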