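import Pool.Agent.Run7.h375.Zeta3

/-!
# CM extensions: regulators
-/

set_option autoImplicit false
set_option linter.unusedSectionVars false

open NumberField Complex Filter Topology NumberField.InfinitePlace NumberField.Units

namespace Run7.h375.CM

section congr

variable {F F' : Type} [Field F] [NumberField F] [Field F'] [NumberField F'] (e : F ≃+* F')

lemma absNorm_map (I : Ideal (𝓞 F)) :
    Ideal.absNorm (I.map (RingOfIntegers.mapRingEquiv e : 𝓞 F →+* 𝓞 F')) = Ideal.absNorm I := by
  rw [Ideal.absNorm_apply, Ideal.absNorm_apply, Submodule.cardQuot_apply, Submodule.cardQuot_apply]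
  exact Nat.card_congr (Ideal.quotientEquiv I _ (RingOfIntegers.mapRingEquiv e) rfl).symm.toEquiv

include e in
lemma zeta_congr : dedekindZeta F = dedekindZeta F' := by
  unfold dedekindZeta
  funext s
  congr 1
  funext n
  congr 1
  refine Nat.card_congr ?_
  refine { toFun := fun I => ⟨I.1.map (RingOfIntegers.mapRingEquiv e : 𝓞 F →+* 𝓞 F'), ?_⟩, 
           invFun := fun I => ⟨I.1.map (RingOfIntegers.mapRingEquiv e.symm : 𝓞 F' →+* 𝓞 F), ?_⟩,
           left_inv := ?_, right_inv := ?_ }
  · rw [absNorm_map, I.2]
  · rw [absNorm_map, I.2]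
  · intro I
    apply Subtype.ext
    simp only
    rw [Ideal.map_map]
    have : ((RingOfIntegers.mapRingEquiv e.symm : 𝓞 F' →+* 𝓞 F)).comp
        (RingOfIntegers.mapRingEquiv e : 𝓞 F →+* 𝓞 F') = RingHom.id _ := by
      ext x
      simp
    rw [this, Ideal.map_id]
  · intro I
    apply Subtype.ext
    simp only
    rw [Ideal.map_map]
    have : ((RingOfIntegers.mapRingEquiv e : 𝓞 F →+* 𝓞 F')).comp
        (RingOfIntegers.mapRingEquiv e.symm : 𝓞 F' →+* 𝓞 F) = RingHom.id _ := by
      ext x
      simp
    rw [this, Ideal.map_id]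

include e in
lemma classNumber_congr : classNumber F = classNumber F' := by
  unfold classNumber
  exact Fintype.card_congr (ClassGroup.mulEquiv (RingOfIntegers.mapRingEquiv e)).toEquiv

include e in
lemma torsionOrder_congr : torsionOrder F = torsionOrder F' := by
  unfold torsionOrder
  refine Nat.card_congr ?_
  refine (Units.mapEquiv (RingOfIntegers.mapRingEquiv e).toMulEquiv).toEquiv.subtypeEquiv ?_
  intro x
  exact (MulEquiv.injective
    (Units.mapEquiv (RingOfIntegers.mapRingEquiv e).toMulEquiv)).isOfFinOrder_iff.symm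

include e in
lemma regulator_congr [IsTotallyReal F] [IsTotallyReal F'] : regulator F = regulator F' := by
  have h1 := tendsto_sub_one_mul_dedekindZeta_nhdsGT F
  have h2 := tendsto_sub_one_mul_dedekindZeta_nhdsGT F'
  rw [zeta_congr e] at h1
  have h3 : (dedekindZeta_residue F : ℂ) = dedekindZeta_residue F' := tendsto_nhds_unique h1 h2
  have h4 : dedekindZeta_residue F = dedekindZeta_residue F' := by exact_mod_cast h3
  rw [dedekindZeta_residue_def, dedekindZeta_residue_def, classNumber_congr e,
    torsionOrder_congr e, discr_eq_discr_of_ringEquiv F e,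
    IsTotallyReal.nrComplexPlaces_eq_zero, IsTotallyReal.nrComplexPlaces_eq_zero] at h4
  have h5 : nrRealPlaces F = nrRealPlaces F' := by
    have e1 := card_add_two_mul_card_eq_rank F
    have e2 := card_add_two_mul_card_eq_rank F'
    rw [IsTotallyReal.nrComplexPlaces_eq_zero] at e1 e2
    have e3 : Module.finrank ℚ F = Module.finrank ℚ F' :=
      (RingEquiv.toRatAlgEquiv e).toLinearEquiv.finrank_eq
    omega
  rw [h5] at h4
  have w1 : (torsionOrder F' : ℝ) ≠ 0 := by exact_mod_cast (torsionOrder_pos F').ne'
  have w2 : Real.sqrt |(discr F' : ℝ)| ≠ 0 :=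
    (Real.sqrt_pos_of_pos <| abs_pos.mpr (Int.cast_ne_zero.mpr (discr_ne_zero F'))).ne'
  have w3 : (classNumber F' : ℝ) ≠ 0 := by exact_mod_cast (classNumber_pos F').ne'
  rw [div_left_inj' (mul_ne_zero w1 w2)] at h4
  have h6 := mul_right_cancel₀ w3 h4
  exact mul_left_cancel₀ (by positivity) h6

end congr

section cm

variable (F L : Type) [Field F] [NumberField F] [Field L] [NumberField L] [Algebra F L]
  [IsTotallyReal F] [IsTotallyComplex L] [Algebra.IsQuadraticExtension F L] [IsCMField L]

theorem cm_reg : regulator L * (IsCMField.indexRealUnits L : ℝ) = 2 ^ (rank L) * regulator F := by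
  have h1 := IsCMField.regulator_div_regulator_eq_two_pow_mul_indexRealUnits_inv L
  have h2 : regulator (maximalRealSubfield L) = regulator F :=
    (regulator_congr (CMExtension.equivMaximalRealSubfield F L)).symm
  rw [h2] at h1
  have h3 : (IsCMField.indexRealUnits L : ℝ) ≠ 0 := by
    rcases IsCMField.indexRealUnits_eq_one_or_two L with h | h <;> rw [h] <;> norm_num
  have h4 := (regulator_pos F).ne'
  field_simp at h1
  linear_combination h1

end cm

end Run7.h375.CM
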