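import Pool.Agent.Y773.HG.FeK
import Pool.Agent.Y772.NZ.Zeta

/-!
# The functional equation of the Dedekind zeta function, I: the finite Fourier transform of the
indicator function of an ideal
-/

set_option autoImplicit false
set_option linter.unusedSectionVars false

open NumberField Complex Filter Topology Set MeasureTheory

namespace Run7.h375.Zeta

open Pool.Agent.Y773.G
open Pool.Agent.Y773 (LI Reps rp rp_ne_bot reps_rp mm mm_pos mm_mem Dd Dd_pos Dd_mem qt qt_spec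
  qt_eq qt_eq_bot SQ ee FT PerI ee_add ee_eq_one_iff ee_sub_eq trace_dvd FT_eq_SQ SQ_const_mul
  SQ_translate SQ_congr SQ_mono absNorm_span_nat rz)
open Pool.Agent.Y772.NZ (one one_ne one_norm LI_one)

variable {K : Type} [Field K] [NumberField K]

open Classical in
/-- the indicator function of the ideal `𝔟` -/
noncomputable def Ind (𝔟 : Ideal (𝓞 K)) (x : 𝓞 K) : ℂ := if x ∈ 𝔟 then 1 else 0

lemma Ind_mem {𝔟 : Ideal (𝓞 K)} {x : 𝓞 K} (h : x ∈ 𝔟) : Ind 𝔟 x = 1 := if_pos h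

lemma Ind_not {𝔟 : Ideal (𝓞 K)} {x : 𝓞 K} (h : x ∉ 𝔟) : Ind 𝔟 x = 0 := if_neg h

lemma Ind_zero (𝔟 : Ideal (𝓞 K)) : Ind 𝔟 0 = 1 := Ind_mem 𝔟.zero_mem

lemma norm_Ind_le (𝔟 : Ideal (𝓞 K)) (x : 𝓞 K) : ‖Ind 𝔟 x‖ ≤ 1 := by
  unfold Ind
  split_ifs <;> simp

lemma sg_zero' (x : K) : sg (fun _ => 0) x = 1 := by
  unfold sg
  exact Finset.prod_eq_one fun w _ => pow_zero _

lemma Ind_eqv (𝔟 : Ideal (𝓞 K)) : Eqv (fun _ => 0) (Ind 𝔟) := by
  intro u x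
  rw [sg_zero', one_mul]
  by_cases h : x ∈ 𝔟
  · rw [Ind_mem h, Ind_mem (Ideal.mul_mem_left _ _ h)]
  · rw [Ind_not h, Ind_not]
    intro h1
    apply h
    have h2 := Ideal.mul_mem_left 𝔟 ((u⁻¹ : (𝓞 K)ˣ) : 𝓞 K) h1
    rwa [← mul_assoc, Units.inv_mul, one_mul] at h2

lemma Ind_perI (𝔟 : Ideal (𝓞 K)) : PerI 𝔟 (Ind 𝔟) := by
  intro x y hxy
  by_cases h : x ∈ 𝔟
  · have h2 : y ∈ 𝔟 := by
      have := 𝔟.sub_mem h hxy
      rwa [sub_sub_cancel] at this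
    rw [Ind_mem h, Ind_mem h2]
  · rw [Ind_not h, Ind_not]
    intro h2
    apply h
    have := 𝔟.add_mem hxy h2
    rwa [sub_add_cancel] at this

/-- the function `Ps` of the trivial character -/
lemma Ps_one {𝔟 : Ideal (𝓞 K)} (h𝔟 : 𝔟 ≠ ⊥) : Ps (one K) (fun _ => 0) 𝔟 = rz (Ind 𝔟) := by
  funext x
  unfold Ps rz
  rw [sg_zero', mul_one]
  split_ifs with hx
  · rw [hx]
    have h1 : (⊥ : Ideal (𝓞 K)) * 𝔟 = Ideal.span {(0 : 𝓞 K)} := by
      rw [Ideal.bot_mul, Ideal.span_singleton_eq_bot.mpr rfl]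
    rw [qt_eq h𝔟 h1, ← Ideal.zero_eq_bot, map_zero]
  · by_cases h : x ∈ 𝔟
    · rw [Ind_mem h]
      obtain ⟨𝔞, h𝔞⟩ := Ideal.dvd_span_singleton.mpr h
      rw [mul_comm] at h𝔞
      rw [qt_eq h𝔟 h𝔞.symm]
      apply one_ne
      rintro rfl
      rw [Ideal.zero_eq_bot, Ideal.bot_mul] at h𝔞
      exact hx (Ideal.span_singleton_eq_bot.mp h𝔞)
    · rw [Ind_not h, qt_eq_bot, ← Ideal.zero_eq_bot, map_zero]
      rintro ⟨𝔞, h𝔞⟩
      apply h
      have h2 : x ∈ Ideal.span {x} := Ideal.mem_span_singleton_self x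
      rw [← h𝔞] at h2
      exact Ideal.mul_le_right h2

lemma SQ_Ind (𝔟 : Ideal (𝓞 K)) : SQ 𝔟 (Ind 𝔟) = 1 := by
  unfold SQ
  rw [finsum_eq_single _ (0 : 𝓞 K ⧸ 𝔟)]
  · apply Ind_mem
    rw [← Ideal.Quotient.eq_zero_iff_mem, Pool.Agent.Y773.mk_out]
  · intro r hr
    apply Ind_not
    rw [← Ideal.Quotient.eq_zero_iff_mem, Pool.Agent.Y773.mk_out]
    exact hr

lemma SQ_span_Ind {𝔟 : Ideal (𝓞 K)} (h𝔟 : 𝔟 ≠ ⊥) {m : ℕ} (hm : 0 < m) (hm𝔟 : (m : 𝓞 K) ∈ 𝔟) :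
    SQ (Ideal.span {(m : 𝓞 K)}) (Ind 𝔟) =
      (m : ℂ) ^ (Module.finrank ℚ K) / (Ideal.absNorm 𝔟 : ℂ) := by
  have hmle : Ideal.span {(m : 𝓞 K)} ≤ 𝔟 := (Ideal.span_singleton_le_iff_mem _).mpr hm𝔟
  have h1 := SQ_mono (span_m_ne_bot hm) hmle (Ind_perI 𝔟)
  rw [SQ_Ind 𝔟, absNorm_span_nat, mul_one] at h1
  have hNb : (Ideal.absNorm 𝔟 : ℂ) ≠ 0 := by
    exact_mod_cast (fun h1 => h𝔟 (Ideal.absNorm_eq_zero_iff.mp h1))
  rw [eq_div_iff hNb, mul_comm, h1]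
  push_cast
  rfl

/-- **The finite Fourier transform of the indicator function of an ideal** -/
theorem FT_Ind {𝔟 𝔟' : Ideal (𝓞 K)} {m D : ℕ} (hm : 0 < m) (hD : 0 < D)
    (hid : 𝔟' * (𝔟 * ⊤ * differentIdeal ℤ (𝓞 K)) = Ideal.span {((m * D : ℕ) : 𝓞 K)})
    (hm𝔟 : (m : 𝓞 K) ∈ 𝔟) (x : 𝓞 K) :
    FT D m (Ind 𝔟) x =
      ((m : ℂ) ^ (Module.finrank ℚ K) / (Ideal.absNorm 𝔟 : ℂ)) * Ind 𝔟' x := by
  have h𝔡 : differentIdeal ℤ (𝓞 K) ≠ ⊥ := differentIdeal_ne_bot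
  rw [Ideal.mul_top] at hid
  set k : ℕ := m * D with hk
  have hk0 : 0 < k := Nat.mul_pos hm hD
  have hkne : Ideal.span {(k : 𝓞 K)} ≠ ⊥ := span_m_ne_bot hk0
  have h𝔟 : 𝔟 ≠ ⊥ := by
    rintro rfl
    rw [Ideal.bot_mul, Ideal.mul_bot] at hid
    exact hkne hid.symm
  have hmne : Ideal.span {(m : 𝓞 K)} ≠ ⊥ := span_m_ne_bot hm
  have hmle : Ideal.span {(m : 𝓞 K)} ≤ 𝔟 := (Ideal.span_singleton_le_iff_mem _).mpr hm𝔟
  by_cases hx : x ∈ 𝔟'
  · -- `x` is in `𝔟'`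
    have hall : ∀ r ∈ 𝔟, (k : ℤ) ∣ Algebra.trace ℤ (𝓞 K) (x * r) := by
      intro r hr
      refine trace_dvd fun δ hδ => ?_
      rw [← hid, mul_assoc]
      exact Ideal.mul_mem_mul hx (Ideal.mul_mem_mul hr hδ)
    have hcond : ∀ r : 𝓞 K, (D : ℤ) ∣ Algebra.trace ℤ (𝓞 K) (x * r) := by
      intro r
      have h1 := hall ((m : 𝓞 K) * r) (Ideal.mul_mem_right _ _ hm𝔟)
      have e3 : x * ((m : 𝓞 K) * r) = (m : ℤ) • (x * r) := by
        rw [zsmul_eq_mul]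
        push_cast
        ring
      rw [e3, map_smul, hk, smul_eq_mul] at h1
      push_cast at h1
      exact (mul_dvd_mul_iff_left (by exact_mod_cast hm.ne')).mp h1
    rw [FT_eq_SQ hcond, Ind_mem hx, mul_one, ← SQ_span_Ind h𝔟 hm hm𝔟]
    refine SQ_congr fun r => ?_
    by_cases hr : r ∈ 𝔟
    · rw [(ee_eq_one_iff hk0 _).mpr (hall r hr), mul_one]
    · rw [Ind_not hr, zero_mul]
  · -- `x` is not in `𝔟'`
    rw [Ind_not hx, mul_zero]
    by_cases hcond : ∀ r : 𝓞 K, (D : ℤ) ∣ Algebra.trace ℤ (𝓞 K) (x * r)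
    swap
    · unfold FT
      rw [if_neg hcond]
    rw [FT_eq_SQ hcond]
    have hexz : ∃ z ∈ 𝔟, ¬ ((k : ℤ) ∣ Algebra.trace ℤ (𝓞 K) (x * z)) := by
      by_contra hcon
      push Not at hcon
      apply hx
      have h1 : Ideal.span {x} * (𝔟 * differentIdeal ℤ (𝓞 K)) ≤
          𝔟' * (𝔟 * differentIdeal ℤ (𝓞 K)) := by
        rw [hid, ← mul_assoc, Ideal.mul_le]
        intro w hw δ hδ
        obtain ⟨z, hz, rfl⟩ := Ideal.mem_span_singleton_mul.mp hw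
        refine trace_dvd_conv hk0 (fun o => ?_) hδ
        rw [mul_assoc]
        exact hcon _ (Ideal.mul_mem_right _ _ hz)
      have h2 : 𝔟' ∣ Ideal.span {x} := by
        have h3 := Ideal.dvd_iff_le.mpr h1
        exact (mul_dvd_mul_iff_right (mul_ne_zero h𝔟 h𝔡)).mp h3
      exact (Ideal.dvd_span_singleton).mp h2
    obtain ⟨z, hz, hz2⟩ := hexz
    have hPer : PerI (Ideal.span {(m : 𝓞 K)}) (fun r => Ind 𝔟 r * ee k (x * r)) := by
      intro r r' hrr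
      have e1 := Ind_perI 𝔟 r r' (hmle hrr)
      have e2 : ee k (x * r) = ee k (x * r') := by
        refine ee_sub_eq hk0 ?_
        obtain ⟨t, ht⟩ := Ideal.mem_span_singleton'.mp hrr
        have e3 : x * r - x * r' = (m : ℤ) • (x * t) := by
          rw [← mul_sub, ← ht, zsmul_eq_mul]
          push_cast
          ring
        rw [e3, map_smul, hk]
        push_cast
        rw [smul_eq_mul]
        exact mul_dvd_mul_left _ (hcond t)
      simp only [e1, e2]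
    have hS := SQ_translate hPer z
    have hne1 : ee k (x * z) ≠ 1 := fun h1 => hz2 ((ee_eq_one_iff hk0 _).mp h1)
    have e4 : SQ (Ideal.span {(m : 𝓞 K)}) (fun r => Ind 𝔟 (r + z) * ee k (x * (r + z))) =
        ee k (x * z) * SQ (Ideal.span {(m : 𝓞 K)}) (fun r => Ind 𝔟 r * ee k (x * r)) := by
      rw [← SQ_const_mul hmne]
      refine SQ_congr fun r => ?_
      have e5 : Ind 𝔟 (r + z) = Ind 𝔟 r := Ind_perI 𝔟 _ _ (by rwa [add_sub_cancel_left])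
      rw [e5, mul_add, ee_add]
      ring
    have e6 : (1 - ee k (x * z)) *
        SQ (Ideal.span {(m : 𝓞 K)}) (fun r => Ind 𝔟 r * ee k (x * r)) = 0 := by
      have := e4.symm.trans hS
      linear_combination -this
    rcases mul_eq_zero.mp e6 with h | h
    · exact absurd (sub_eq_zero.mp h).symm hne1
    · exact h

end Run7.h375.Zeta
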