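import Pool.Agent.Run7.h375.Zeta1

/-!
# The functional equation of the Dedekind zeta function, II
-/

set_option autoImplicit false
set_option linter.unusedSectionVars false

open NumberField Complex Filter Topology Set MeasureTheory

namespace Run7.h375.Zeta

open Pool.Agent.Y773.G
open Pool.Agent.Y773 (LI Reps rp rp_ne_bot reps_rp mm mm_pos mm_mem Dd Dd_pos Dd_mem qt qt_spec
  qt_eq qt_eq_bot SQ ee FT PerI ee_add ee_eq_one_iff ee_sub_eq trace_dvd FT_eq_SQ SQ_const_mul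
  SQ_translate SQ_congr SQ_mono absNorm_span_nat rz)
open Pool.Agent.Y772.NZ (one one_ne one_norm LI_one)

variable {K : Type} [Field K] [NumberField K]

lemma th_const_mul (e : InfinitePlace K → ℕ) (Ψ : 𝓞 K → ℂ) (a : ℂ) (y : InfinitePlace K → ℝ) :
    th e (fun x => a * Ψ x) y = a * th e Ψ y := by
  unfold th
  rw [← tsum_mul_left]
  refine tsum_congr fun x => ?_
  ring

lemma hf_const_mul (e : InfinitePlace K → ℕ) (Ψ : 𝓞 K → ℂ) (a : ℂ) (t : ℝ) :
    hf e (fun x => a * Ψ x) t = a * hf e Ψ t := by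
  unfold hf
  simp_rw [th_const_mul]
  rw [integral_const_mul]

/-- the product of the gamma factors -/
noncomputable def GaK (K : Type) [Field K] [NumberField K] (s : ℂ) : ℂ :=
  ∏ φ : K →+* ℂ, Complex.Gammaℝ (s + ex (fun _ => 0) φ)

lemma nice_one {𝔟 : Ideal (𝓞 K)} (h𝔟 : 𝔟 ≠ ⊥) : Nice (fun _ => 0) (Ps (one K) (fun _ => 0) 𝔟) := by
  rw [Ps_one h𝔟]
  exact rz_nice (fun _ => Nat.zero_le _) (fun _ _ => rfl) (norm_Ind_le 𝔟) (Ind_eqv 𝔟)

theorem data (K : Type) [Field K] [NumberField K] : ∃ (P : WeakFEPair ℂ) (C V : ℝ), 0 < C ∧ 0 < V ∧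
    P.k = 1 ∧ P.f₀ = (classNumber K : ℂ) ∧ P.ε * P.g₀ = (classNumber K : ℂ) / V ∧
    (∀ s : ℂ, 1 < s.re → P.Λ s = C * (GaK K s * dedekindZeta K s)) ∧
    (∀ s : ℂ, 1 < s.re → P.Λ (1 - s) =
      (V : ℂ)⁻¹ * ((Ideal.absNorm (differentIdeal ℤ (𝓞 K)) : ℝ) : ℂ) ^ s * P.Λ s) := by
  classical
  have h𝔡 : differentIdeal ℤ (𝓞 K) ≠ ⊥ := differentIdeal_ne_bot
  have htop : (⊤ : Ideal (𝓞 K)) ≠ ⊥ := top_ne_bot
  obtain ⟨V, hV0, hV⟩ := fam_weak K
  obtain ⟨C, hC, hmel⟩ := mellin_Ftot K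
  set m := mm (rp K) ⊤ with hm
  set D := Dd K with hD
  have hm0 : 0 < m := mm_pos rp_ne_bot htop
  have hD0 : 0 < D := Dd_pos
  have hmb : ∀ c, (m : 𝓞 K) ∈ rp K c := fun c => by
    have := mm_mem (rp K) ⊤ c
    rwa [Ideal.mul_top] at this
  choose 𝔟' h𝔟' using fun c => exists_compl (𝔣 := ⊤) (𝔟 := rp K c) (m := m) (D := D)
    (mm_mem _ _ c) Dd_mem
  have hR' : Reps 𝔟' := reps_compl htop reps_rp (Nat.mul_pos hm0 hD0) h𝔟'
  set R : ℝ := (Ideal.absNorm (differentIdeal ℤ (𝓞 K)) : ℝ) with hR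
  have hR0 : 0 < R := by
    have h4 : Ideal.absNorm (differentIdeal ℤ (𝓞 K)) ≠ 0 :=
      fun h1 => h𝔡 (Ideal.absNorm_eq_zero_iff.mp h1)
    rw [hR]
    exact_mod_cast Nat.pos_of_ne_zero h4
  have hmc : (m : ℂ) ^ (Module.finrank ℚ K) ≠ 0 := pow_ne_zero _ (by exact_mod_cast hm0.ne')
  obtain ⟨P, hPf, hPg, hPk, hPε, hPf0, hPg0⟩ := hV (rp K) reps_rp (fun _ => 0)
    (fun _ => Nat.zero_le _) (fun _ _ => rfl) (fun c => Ind (rp K c)) 1 (fun c => norm_Ind_le _)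
    (fun c => Ind_eqv _) m D hm0 hD0 Dd_mem (fun c x z => Ind_perI (rp K c) _ _ (by
      rw [add_sub_cancel_left]
      exact Ideal.mul_mem_right _ _ (hmb c)))
  have hFT : ∀ c x, FT D m (Ind (rp K c)) x =
      ((m : ℂ) ^ (Module.finrank ℚ K) / (Ideal.absNorm (rp K c) : ℂ)) * Ind (𝔟' c) x := fun c x =>
    FT_Ind hm0 hD0 (h𝔟' c) (hmb c) x
  have hNb : ∀ c, (Ideal.absNorm (rp K c) : ℂ) ≠ 0 := fun c => by
    exact_mod_cast (fun h1 => rp_ne_bot c (Ideal.absNorm_eq_zero_iff.mp h1))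
  have heM : ∑ φ : K →+* ℂ, eM (fun _ => 0) φ = 0 := Finset.sum_eq_zero fun φ _ => rfl
  have hε : P.ε = (V : ℂ)⁻¹ * ((m : ℂ) ^ (Module.finrank ℚ K))⁻¹ := by
    rw [hPε, heM, pow_zero, mul_one]
    push_cast
    rfl
  have hf0 : P.f₀ = (classNumber K : ℂ) := by
    rw [hPf0, G00_zero, one_mul]
    simp only [Ind_zero]
    rw [Finset.sum_const, nsmul_eq_mul, mul_one, Finset.card_univ]
    rfl
  have hg0 : P.g₀ = (classNumber K : ℂ) * (m : ℂ) ^ (Module.finrank ℚ K) := by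
    rw [hPg0, G00_zero, one_mul]
    have : ∀ c, (Ideal.absNorm (rp K c) : ℂ) * FT D m (Ind (rp K c)) 0 =
        (m : ℂ) ^ (Module.finrank ℚ K) := by
      intro c
      rw [hFT, Ind_zero, mul_one, mul_div_cancel₀ _ (hNb c)]
    rw [Finset.sum_congr rfl fun c _ => this c, Finset.sum_const, nsmul_eq_mul, Finset.card_univ]
    rfl
  have hB1 : ∀ c x, ‖Ind (rp K c) x‖ ≤ 1 := fun c => norm_Ind_le _
  -- the function
  have hf : ∀ t, P.f t - P.f₀ = Ftot (one K) (fun _ => 0) (rp K) t := by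
    intro t
    rw [hPf, hPf0]
    unfold FF Ftot
    simp_rw [fun c => hf_rz (e := fun _ => 0) (fun _ => Nat.zero_le _) (hB1 c)
      ((Ideal.absNorm (rp K c) : ℝ)⁻¹ * t)]
    rw [Finset.sum_add_distrib, Finset.mul_sum]
    have : ∑ c, Ind (rp K c) 0 * G00 (fun _ : InfinitePlace K => 0) =
      ∑ c, G00 (fun _ : InfinitePlace K => 0) * Ind (rp K c) 0 :=
        Finset.sum_congr rfl fun c _ => mul_comm _ _
    rw [this, add_sub_cancel_left]
    refine Finset.sum_congr rfl fun c _ => ?_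
    rw [Ps_one (rp_ne_bot c)]
  have hN : ∀ c, Nice (fun _ => 0) (Ps (one K) (fun _ => 0) (rp K c)) := fun c =>
    nice_one (rp_ne_bot c)
  have hN' : ∀ c, Nice (fun _ => 0) (Ps (one K) (fun _ => 0) (𝔟' c)) := fun c =>
    nice_one (hR'.ne_bot c)
  have hΛ : ∀ s : ℂ, 1 < s.re → P.Λ s = C * (GaK K s * dedekindZeta K s) := by
    intro s hs
    have h1 := P.hasMellin (s := s) (by rw [hPk]; exact hs)
    have h2 := (hmel (rp K) reps_rp (fun _ => 0) (one K) (one_norm K) hN s hs).2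
    rw [LI_one K hs] at h2
    rw [← h1.2]
    simp only [hf]
    exact h2
  -- the dual function
  have hB2 : ∀ c x, ‖FT D m (Ind (rp K c)) x‖ ≤ ‖(m : ℂ) ^ (Module.finrank ℚ K) /
      (Ideal.absNorm (rp K c) : ℂ)‖ := by
    intro c x
    rw [hFT, norm_mul]
    calc _ ≤ ‖(m : ℂ) ^ (Module.finrank ℚ K) / (Ideal.absNorm (rp K c) : ℂ)‖ * 1 :=
        mul_le_mul_of_nonneg_left (norm_Ind_le _ _) (norm_nonneg _)
      _ = _ := mul_one _
  have hg : ∀ t, P.g t - P.g₀ = (m : ℂ) ^ (Module.finrank ℚ K) •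
      Ftot (one K) (fun _ => 0) 𝔟' (R⁻¹ * t) := by
    intro t
    rw [hPg, hPg0, smul_eq_mul]
    unfold FG Ftot
    simp_rw [fun c => hf_rz (e := fun _ => 0) (fun _ => Nat.zero_le _) (hB2 c)
      (t * Ideal.absNorm (rp K c) / ((m * D : ℕ) : ℝ) ^ (Module.finrank ℚ K)), mul_add]
    rw [Finset.sum_add_distrib, Finset.mul_sum]
    have : ∑ c, (Ideal.absNorm (rp K c) : ℂ) * (FT D m (Ind (rp K c)) 0 *
        G00 (fun _ : InfinitePlace K => 0)) = ∑ c, G00 (fun _ : InfinitePlace K => 0) *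
          ((Ideal.absNorm (rp K c) : ℂ) * FT D m (Ind (rp K c)) 0) :=
        Finset.sum_congr rfl fun c _ => by ring
    rw [this, add_sub_cancel_left, Finset.mul_sum]
    refine Finset.sum_congr rfl fun c _ => ?_
    have h1 : rz (FT D m (Ind (rp K c))) = fun x => ((m : ℂ) ^ (Module.finrank ℚ K) /
          (Ideal.absNorm (rp K c) : ℂ)) * (Ps (one K) (fun _ => 0) (𝔟' c)) x := by
      rw [Ps_one (hR'.ne_bot c)]
      funext x
      unfold rz
      split_ifs with hx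
      · rw [mul_zero]
      · exact hFT c x
    have hNbR : (Ideal.absNorm (rp K c) : ℝ) ≠ 0 := by exact_mod_cast hNb c
    have hNb'R : (Ideal.absNorm (𝔟' c) : ℝ) ≠ 0 := by
      exact_mod_cast (fun h1 => hR'.ne_bot c (Ideal.absNorm_eq_zero_iff.mp h1))
    have h2 : t * (Ideal.absNorm (rp K c) : ℝ) / ((m * D : ℕ) : ℝ) ^ (Module.finrank ℚ K) =
        (Ideal.absNorm (𝔟' c) : ℝ)⁻¹ * (R⁻¹ * t) := by
      have h3 := congrArg Ideal.absNorm (h𝔟' c)
      rw [Ideal.mul_top, map_mul, map_mul, absNorm_span_nat] at h3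
      have h4 : ((m * D : ℕ) : ℝ) ^ (Module.finrank ℚ K) = (Ideal.absNorm (𝔟' c) : ℝ) *
          ((Ideal.absNorm (rp K c) : ℝ) * R) := by
        rw [hR]
        exact_mod_cast h3.symm
      rw [h4]
      field_simp
    rw [h1, h2, hf_const_mul]
    have := hNb c
    field_simp
  refine ⟨P, C, V, hC, hV0, hPk, hf0, ?_, hΛ, ?_⟩
  · rw [hε, hg0]
    field_simp
  · intro s hs
    have h1 := P.functional_equation s
    have h2 := P.symm.hasMellin (s := s) (by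
      have : P.symm.k = P.k := rfl
      rw [this, hPk]; exact hs)
    have h3 : P.symm.Λ s = (m : ℂ) ^ (Module.finrank ℚ K) * ((R : ℂ) ^ s * P.Λ s) := by
      rw [← h2.2]
      have h4 : (fun t => P.symm.f t - P.symm.f₀) = fun t => (m : ℂ) ^ (Module.finrank ℚ K) •
          Ftot (one K) (fun _ => 0) 𝔟' (R⁻¹ * t) := funext hg
      rw [h4, mellin_const_smul, smul_eq_mul, mellin_comp_mul_left _ _ (inv_pos.mpr hR0),
        smul_eq_mul, (hmel 𝔟' hR' (fun _ => 0) (one K) (one_norm K) hN' s hs).2, LI_one K hs, hΛ s hs]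
      have h6 : (((R⁻¹ : ℝ) : ℂ)) ^ (-s) = (R : ℂ) ^ s := by
        have hRc : (R : ℂ) ≠ 0 := by exact_mod_cast hR0.ne'
        rw [Complex.cpow_def_of_ne_zero (by exact_mod_cast (inv_pos.mpr hR0).ne'),
          ← Complex.ofReal_log (inv_pos.mpr hR0).le, Real.log_inv,
          Complex.cpow_def_of_ne_zero hRc, ← Complex.ofReal_log hR0.le]
        congr 1
        push_cast
        ring
      rw [h6]
      rfl
    rw [hPk, h3, hε, smul_eq_mul] at h1
    rw [ofReal_one] at h1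
    rw [h1]
    field_simp

end Run7.h375.Zeta
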